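import Mathlib

set_option maxHeartbeats 400000
set_option autoImplicit false

namespace Pool.Agent.Results.MP_e032dc_al.EveryPrime

/-- the quasicyclic `p`-group, by its properties -/
class Pru (p : ℕ) (A : Type) [AddCommGroup A] : Prop where
  tors : ∀ x : A, ∃ m : ℕ, p ^ m • x = 0
  uniq : ∀ x y : A, p • x = 0 → p • y = 0 → y ≠ 0 → ∃ j < p, x = j • y
  big : ∀ m : ℕ, ∃ x : A, p ^ (m + 1) • x = 0 ∧ p ^ m • x ≠ 0

theorem exists_pru (p : ℕ) (hp : p.Prime) : ∃ (A : Type) (_ : AddCommGroup A), Pru p A := by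
  have p0 : (p : ℚ) ≠ 0 := by exact_mod_cast hp.ne_zero
  let S : AddSubgroup (AddCircle (1 : ℚ)) :=
    { carrier := {x | ∃ m : ℕ, p ^ m • x = 0}
      zero_mem' := ⟨0, by simp⟩
      neg_mem' := fun ⟨m, h⟩ => ⟨m, by rw [smul_neg, h, neg_zero]⟩
      add_mem' := fun {a b} ⟨m, h⟩ ⟨n, h'⟩ => ⟨m + n, by
        rw [smul_add, pow_add, mul_comm, mul_smul, h, mul_comm, mul_smul, h']; simp⟩ }
  have hz : ∀ q : ℚ, ((q : AddCircle (1 : ℚ)) = 0) ↔ ∃ n : ℤ, (n : ℚ) = q := fun q => by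
    rw [AddCircle.coe_eq_zero_iff]; simp
  let e : AddCircle (1 : ℚ) := ((1 / p : ℚ) : AddCircle (1 : ℚ))
  have he : p • e = 0 := by
    rw [← AddCircle.coe_nsmul, hz]
    exact ⟨1, by simp [p0]⟩
  have hmod : ∀ n : ℕ, n • e = (n % p) • e := by
    intro n
    conv_lhs => rw [← Nat.div_add_mod n p, add_smul, mul_comm, mul_smul, he, smul_zero, zero_add]
  have hh : ∀ x : AddCircle (1 : ℚ), p • x = 0 → ∃ i < p, x = i • e := by
    intro x hx
    obtain ⟨q, rfl⟩ := QuotientAddGroup.mk_surjective x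
    rw [← AddCircle.coe_nsmul, hz] at hx
    obtain ⟨n, hn⟩ := hx
    have hpz : (p : ℤ) ≠ 0 := by exact_mod_cast hp.ne_zero
    have h1 := Int.emod_nonneg n hpz
    have h2 := Int.emod_lt_of_pos n (show (0 : ℤ) < p by exact_mod_cast hp.pos)
    refine ⟨(n % p).toNat, by omega, ?_⟩
    rw [← sub_eq_zero, ← AddCircle.coe_nsmul, ← AddCircle.coe_sub, hz]
    refine ⟨n / p, ?_⟩
    have h3 : ((n % p).toNat : ℚ) = ((n % p : ℤ) : ℚ) := by
      rw [← Int.cast_natCast, Int.toNat_of_nonneg h1]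
    have h4 : (n : ℚ) = p * ((n / p : ℤ) : ℚ) + ((n % p : ℤ) : ℚ) := by
      exact_mod_cast (Int.mul_ediv_add_emod n p).symm
    rw [nsmul_eq_mul] at hn
    rw [nsmul_eq_mul, h3]
    field_simp
    linarith
  have hp' : ∀ m : ℕ, p ^ (m + 1) • (((1 / p ^ (m + 1) : ℚ)) : AddCircle (1 : ℚ)) = 0 := fun m => by
    rw [← AddCircle.coe_nsmul, hz]
    exact ⟨1, by simp [p0]⟩
  refine ⟨S, inferInstance, fun x => ?_, fun x y hx hy h2 => ?_, fun m => ?_⟩
  · obtain ⟨m, h⟩ := x.2
    exact ⟨m, Subtype.ext h⟩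
  · obtain ⟨i, -, hi⟩ := hh x (congrArg Subtype.val hx)
    obtain ⟨j, hj, hj'⟩ := hh y (congrArg Subtype.val hy)
    have hj0 : j ≠ 0 := by
      rintro rfl
      exact h2 (Subtype.ext (by simpa using hj'))
    have hc : Nat.Coprime j p := (Nat.coprime_of_lt_prime hj0 hj hp).symm
    obtain ⟨m, hm, hm'⟩ := Nat.exists_mul_mod_eq_of_coprime i hc hp.ne_zero
    refine ⟨m, hm, Subtype.ext ?_⟩
    show (x : AddCircle (1 : ℚ)) = m • (y : AddCircle (1 : ℚ))
    rw [hi, hj', ← mul_smul, hmod i, ← hm', ← hmod, mul_comm]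
  · refine ⟨⟨_, m + 1, hp' m⟩, Subtype.ext (hp' m), fun h => ?_⟩
    have h1 : p ^ m • (((1 / p ^ (m + 1) : ℚ)) : AddCircle (1 : ℚ)) = 0 := congrArg Subtype.val h
    rw [← AddCircle.coe_nsmul, hz] at h1
    obtain ⟨n, hn⟩ := h1
    have h2 : (p : ℚ) * n = 1 := by rw [hn, nsmul_eq_mul]; push_cast; field_simp; ring
    have h3 : (p : ℤ) * n = 1 := by exact_mod_cast h2
    have h4 : (p : ℤ) ∣ 1 := ⟨n, h3.symm⟩
    have h5 := Int.natAbs_dvd_natAbs.2 h4
    simp at h5
    exact hp.one_lt.ne' h5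

section basic

variable {p : ℕ} {A : Type} [AddCommGroup A]

variable (p A) in
def B (m : ℕ) : AddSubgroup A where
  carrier := {x | p ^ m • x = 0}
  zero_mem' := by simp
  neg_mem' := fun {a} h => by simp only [Set.mem_ofPred_eq] at *; rw [smul_neg, h, neg_zero]
  add_mem' := fun {a b} h h' => by simp only [Set.mem_ofPred_eq] at *; rw [smul_add, h, h', add_zero]

theorem mem_B {m : ℕ} {x : A} : x ∈ B p A m ↔ p ^ m • x = 0 := Iff.rfl

theorem B_mono {m n : ℕ} (h : m ≤ n) {x : A} (hx : x ∈ B p A m) : x ∈ B p A n := by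
  obtain ⟨k, rfl⟩ := Nat.exists_eq_add_of_le h
  rw [mem_B, pow_add, mul_comm, mul_smul, mem_B.1 hx, smul_zero]

theorem B_zero {x : A} : x ∈ B p A 0 ↔ x = 0 := by simp [mem_B]

theorem p_mem {m : ℕ} {x : A} : p • x ∈ B p A m ↔ x ∈ B p A (m + 1) := by
  rw [mem_B, mem_B, ← mul_smul, pow_succ]

theorem p_mem' {m : ℕ} {x : A} (h : x ∈ B p A m) : p • x ∈ B p A (m - 1) :=
  p_mem.2 (B_mono (by omega) h)

theorem pow_mem_B {m j : ℕ} {x : A} : p ^ j • x ∈ B p A m ↔ x ∈ B p A (m + j) := by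
  rw [mem_B, mem_B, ← mul_smul, pow_add]

variable (p) in
/-- exact level -/
def Ex (i : ℕ) (c : A) : Prop := c ∈ B p A i ∧ ∀ j < i, c ∉ B p A j

theorem Ex.add {i j : ℕ} {c d : A} (h : Ex p i c) (hd : d ∈ B p A j) (hj : j < i ∨ j = 0) :
    Ex p i (c + d) := by
  rcases hj with hj | rfl
  · refine ⟨add_mem h.1 (B_mono hj.le hd), fun l hl h' => h.2 (max l j) (by omega) ?_⟩
    have := sub_mem (B_mono (le_max_left l j) h') (B_mono (le_max_right l j) hd)
    rwa [add_sub_cancel_right] at this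
  · rw [B_zero.1 hd, add_zero]; exact h

theorem Ex.two {i : ℕ} {c : A} (h : Ex p (i + 1) c) : Ex p i (p • c) :=
  ⟨p_mem.2 h.1, fun j hj h' => h.2 (j + 1) (by omega) (p_mem.1 h')⟩

theorem Ex.pow {i j : ℕ} {c : A} (h : Ex p (i + j) c) : Ex p i (p ^ j • c) :=
  ⟨pow_mem_B.2 h.1, fun l hl h' => h.2 (l + j) (by omega) (pow_mem_B.1 h')⟩

theorem Ex.of_not {i : ℕ} {c : A} (h : c ∈ B p A (i + 1)) (h' : c ∉ B p A i) : Ex p (i + 1) c :=
  ⟨h, fun j hj h2 => h' (B_mono (by omega) h2)⟩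

variable [Pru p A]

variable (p) in
theorem exists_B (x : A) : ∃ m, x ∈ B p A m := Pru.tors x

variable (p) in
theorem exists_Ex (x : A) : ∃ m, Ex p m x := by
  classical
  exact ⟨Nat.find (exists_B p x), Nat.find_spec (exists_B p x), fun j hj => Nat.find_min _ hj⟩

theorem sub_mem_B {m : ℕ} {x y : A} (hx : x ∈ B p A (m + 1)) (hy : y ∈ B p A (m + 1))
    (hy' : y ∉ B p A m) : ∃ j < p, x - j • y ∈ B p A m := by
  obtain ⟨j, hj, h⟩ := Pru.uniq (p := p) (p ^ m • x) (p ^ m • y)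
    (by rw [← mul_smul, ← pow_succ']; exact hx) (by rw [← mul_smul, ← pow_succ']; exact hy) hy'
  refine ⟨j, hj, ?_⟩
  rw [mem_B, smul_sub, h, ← mul_smul, ← mul_smul, mul_comm, sub_self]

omit [Pru p A] in
/-- distinct multiples `< p` of an element of exact level `m + 1` differ modulo `B m` -/
theorem mul_inj [hp : Fact p.Prime] {m : ℕ} {e : A} (he : Ex p (m + 1) e) {i j : ℕ} (hi : i < p)
    (hj : j < p) (h : i • e - j • e ∈ B p A m) : i = j := by
  have h1 : p • (p ^ m • e) = 0 := by rw [← mul_smul, ← pow_succ']; exact he.1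
  have h2 : p ^ m • e ≠ 0 := fun h => he.2 m (by omega) h
  have h3 : addOrderOf (p ^ m • e) = p := addOrderOf_eq_prime h1 h2
  have h4 : i • (p ^ m • e) = j • (p ^ m • e) := by
    rw [← sub_eq_zero, ← mul_smul, ← mul_smul, mul_comm, mul_comm j, mul_smul, mul_smul, ← smul_sub]
    exact h
  have h5 := nsmul_eq_nsmul_iff_modEq.1 h4
  rw [h3] at h5
  exact Nat.ModEq.eq_of_lt_of_lt h5 hi hj

variable (p A) in
theorem exists_Ex' (m : ℕ) : ∃ x : A, Ex p (m + 1) x := by
  obtain ⟨x, h1, h2⟩ := Pru.big (p := p) (A := A) m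
  exact ⟨x, Ex.of_not h1 h2⟩

variable (p A) in
theorem B_fin (m : ℕ) : (B p A m : Set A).Finite := by
  induction m with
  | zero => exact (Set.finite_singleton 0).subset fun x hx => B_zero.1 hx
  | succ m ih =>
    obtain ⟨e, he⟩ := exists_Ex' p A m
    refine ((Set.finite_Iio p).biUnion fun j _ => ih.image fun x => x + j • e).subset fun x hx => ?_
    obtain ⟨j, hj, h⟩ := sub_mem_B hx he.1 (he.2 m (by omega))
    exact Set.mem_biUnion (show j ∈ Set.Iio p from hj) ⟨x - j • e, h, by simp⟩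

theorem ball_fin (x : A) (m : ℕ) : {y | y - x ∈ B p A m}.Finite :=
  ((B_fin p A m).image fun y => y + x).subset fun y hy => ⟨y - x, hy, by simp⟩

variable (p) in
theorem fin_sub {S : Set A} (h : S.Finite) : ∃ n, ∀ x ∈ S, x ∈ B p A n := by
  choose f hf using exists_B p (A := A)
  obtain ⟨n, hn⟩ := (h.image f).bddAbove
  exact ⟨n, fun x hx => B_mono (hn ⟨x, hx, rfl⟩) (hf x)⟩

theorem Ex.cyc {i : ℕ} : ∀ {c z : A}, Ex p i c → z ∈ B p A i → ∃ j : ℕ, z = j • c := by
  induction i with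
  | zero => intro c z _ hz; exact ⟨0, by simpa using B_zero.1 hz⟩
  | succ i ih =>
    intro c z hc hz
    obtain ⟨l, -, hl⟩ := sub_mem_B hz hc.1 (hc.2 i (by omega))
    obtain ⟨j, hj⟩ := ih hc.two hl
    exact ⟨j * p + l, by rw [add_smul, mul_smul, ← hj]; simp⟩

omit [Pru p A] in
/-- the displacement of `g` at `x` -/
def D (g : Equiv.Perm A) (x : A) : A := g x - x

variable (p) in
/-- the displacement function is Lipschitz, of exponent 1/3 on levels -/
def Lp (g : Equiv.Perm A) : Prop := ∀ m x y, x - y ∈ B p A m → D g x - D g y ∈ B p A (m / 3)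

omit [Pru p A] in
theorem D_mul (g h : Equiv.Perm A) (x : A) : D (g * h) x = D h x + D g (h x) := by simp [D]

omit [Pru p A] in
theorem Lp.iso {g : Equiv.Perm A} (hg : Lp p g) {m : ℕ} {x y : A} (h : x - y ∈ B p A m) :
    g x - g y ∈ B p A m := by
  have := add_mem h (B_mono (Nat.div_le_self m 3) (hg m x y h))
  convert this using 1
  simp only [D]; abel

omit [Pru p A] in
theorem Lp.ex {g : Equiv.Perm A} (hg : Lp p g) {m : ℕ} {x y : A} (h : Ex p m (x - y)) :
    Ex p m (g x - g y) := by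
  have := h.add (hg m x y h.1) (by omega)
  convert this using 1
  simp only [D]; abel

theorem Lp.iso' {g : Equiv.Perm A} (hg : Lp p g) {m : ℕ} {x y : A} (h : g x - g y ∈ B p A m) :
    x - y ∈ B p A m := by
  obtain ⟨j, hj⟩ := exists_Ex p (x - y)
  by_cases hjm : j ≤ m
  · exact B_mono hjm hj.1
  · exact absurd h ((hg.ex hj).2 m (by omega))

variable (p A) in
def GG : Subgroup (Equiv.Perm A) where
  carrier := {g | Lp p g}
  one_mem' := fun m x y _ => by simp [D]
  mul_mem' := fun {g h} hg hh m x y hxy => by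
    have := add_mem (hh m x y hxy) (hg m _ _ (Lp.iso hh hxy))
    convert this using 1
    simp only [D_mul]; abel
  inv_mem' := fun {g} hg m x y hxy => by
    have := neg_mem (hg m (g⁻¹ x) (g⁻¹ y) (Lp.iso' hg (by simpa using hxy)))
    convert this using 1
    simp only [D, Equiv.Perm.coe_inv, Equiv.apply_symm_apply]; abel

omit [Pru p A] in
theorem D_pow (g : Equiv.Perm A) (n : ℕ) (x : A) :
    D (g ^ n) x = n • D g x + ∑ a ∈ Finset.range n, (D g ((g ^ a) x) - D g x) := by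
  induction n with
  | zero => simp [D]
  | succ n ih =>
    rw [pow_succ', D_mul, ih, Finset.sum_range_succ, succ_nsmul]
    abel

theorem pow_D_mem {g : Equiv.Perm A} (hg : g ∈ GG p A) {m : ℕ} {x : A} (h : D g x ∈ B p A m)
    (a : ℕ) : D (g ^ a) x ∈ B p A m := by
  induction a with
  | zero => simp [D]
  | succ a ih =>
    rw [pow_succ', D_mul]
    have h1 := B_mono (Nat.div_le_self m 3) (hg m ((g ^ a) x) x (by simpa [D] using ih))
    have := add_mem ih (add_mem h1 h)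
    simpa using this

theorem rem_mem {g : Equiv.Perm A} (hg : g ∈ GG p A) {m : ℕ} {x : A} (h : D g x ∈ B p A m)
    (n : ℕ) : ∑ a ∈ Finset.range n, (D g ((g ^ a) x) - D g x) ∈ B p A (m / 3) :=
  sum_mem fun a _ => hg m _ _ (pow_D_mem hg h a)

theorem sq_mem {g : Equiv.Perm A} (hg : g ∈ GG p A) {m : ℕ} {x : A} (h : D g x ∈ B p A m) :
    D (g ^ p) x ∈ B p A (m - 1) := by
  rw [D_pow]
  exact add_mem (p_mem' h) (B_mono (by omega) (rem_mem hg h p))

theorem sq_ex {g : Equiv.Perm A} (hg : g ∈ GG p A) {m : ℕ} {x : A} (h : Ex p (m + 1) (D g x)) :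
    Ex p m (D (g ^ p) x) := by
  rw [D_pow]
  exact h.two.add (rem_mem hg h.1 p) (by omega)

theorem pow_mem_D {g : Equiv.Perm A} (hg : g ∈ GG p A) {m : ℕ} {x : A} (h : D g x ∈ B p A m)
    (t : ℕ) : D (g ^ p ^ t) x ∈ B p A (m - t) := by
  induction t with
  | zero => simpa using h
  | succ t ih => rw [pow_succ, pow_mul]; exact sq_mem ((GG p A).pow_mem hg _) ih

theorem pow_ex {g : Equiv.Perm A} (hg : g ∈ GG p A) {x : A} (t : ℕ) :
    ∀ {m : ℕ}, Ex p (m + t) (D g x) → Ex p m (D (g ^ p ^ t) x) := by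
  induction t with
  | zero => intro m h; simpa using h
  | succ t ih =>
    intro m h
    rw [pow_succ, pow_mul]
    exact sq_ex ((GG p A).pow_mem hg _) (ih (by rwa [add_assoc, add_comm 1 t]))

theorem cyc_ge {j : ℕ} : ∀ {g : Equiv.Perm A}, g ∈ GG p A → ∀ {x : A}, Ex p j (D g x) →
    ∀ y, y - x ∈ B p A j → ∃ n : ℕ, (g ^ n) x = y := by
  induction j with
  | zero => intro g _ x _ y hy; exact ⟨0, (sub_eq_zero.1 (B_zero.1 hy)).symm⟩
  | succ j ih =>
    intro g hg x hx y hy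
    obtain ⟨i, -, hi⟩ := sub_mem_B hy hx.1 (hx.2 j (by omega))
    have h1 := pow_D_mem hg hx.1 i
    have h2 : y - (g ^ i) x ∈ B p A j := by
      have := sub_mem hi (B_mono (show (j + 1) / 3 ≤ j by omega) (rem_mem hg hx.1 i))
      have e := D_pow g i x
      have e' : (g ^ i) x = x + D (g ^ i) x := by simp [D]
      rw [e', e]
      convert this using 1
      abel
    have h3 : Ex p (j + 1) (D g ((g ^ i) x)) := by
      have := hx.add (hg (j + 1) ((g ^ i) x) x (by simpa [D] using h1)) (by omega)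
      simpa using this
    obtain ⟨n, hn⟩ := ih ((GG p A).pow_mem hg p) (sq_ex hg h3) y h2
    exact ⟨p * n + i, by rw [pow_add, pow_mul, Equiv.Perm.mul_apply]; exact hn⟩

theorem cyc_le {g : Equiv.Perm A} (hg : g ∈ GG p A) {j : ℕ} {x : A} (hx : D g x ∈ B p A j) (n : ℤ) :
    (g ^ n) x - x ∈ B p A j := by
  induction n using Int.induction_on with
  | zero => simp
  | succ n ih =>
    rw [add_comm, zpow_add, zpow_one, Equiv.Perm.mul_apply]
    simpa [D] using add_mem (Lp.iso hg ih) hx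
  | pred n ih =>
    rw [sub_eq_add_neg (-(n : ℤ)), add_comm, zpow_add, zpow_neg_one, Equiv.Perm.mul_apply]
    refine Lp.iso' hg ?_
    simpa [D] using sub_mem ih hx

theorem block {g : Equiv.Perm A} (hg : g ∈ GG p A) (x : A) (j : ℕ) :
    g '' {y | y - x ∈ B p A j} = {y | y - x ∈ B p A j} ∨
      Disjoint (g '' {y | y - x ∈ B p A j}) {y | y - x ∈ B p A j} := by
  by_cases h : g x - x ∈ B p A j
  · left
    ext y
    constructor
    · rintro ⟨z, hz, rfl⟩
      simpa using add_mem (Lp.iso hg hz) h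
    · intro hy
      exact ⟨g⁻¹ y, Lp.iso' hg (by simpa using sub_mem hy h), by simp⟩
  · right
    refine Set.disjoint_left.2 ?_
    rintro _ ⟨z, hz, rfl⟩ h'
    exact h (by simpa using sub_mem h' (Lp.iso hg hz))

theorem pure {g : Equiv.Perm A} (hg : g ∈ GG p A) {L : ℕ} (hL : ∀ x, D g x ∈ B p A L) {n : ℕ}
    {x y : A} (h : x - y ∈ B p A n) (t : ℕ) :
    D (g ^ p ^ t) x - D (g ^ p ^ t) y ∈ B p A (max ((L - t + 1) / 3) (n / 3 - t)) := by
  induction t with
  | zero => simpa using B_mono (by omega) (hg n x y h)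
  | succ t ih =>
    have hg' := (GG p A).pow_mem hg (p ^ t)
    have h1 := rem_mem hg' (pow_mem_D hg (hL x) t) p
    have h2 := rem_mem hg' (pow_mem_D hg (hL y) t) p
    have h3 := add_mem (B_mono (n := max ((L - (t + 1) + 1) / 3) (n / 3 - (t + 1))) (by omega)
      (p_mem' ih)) (sub_mem (B_mono (by omega) h1) (B_mono (by omega) h2))
    rw [pow_succ, pow_mul, D_pow (g ^ p ^ t) p x, D_pow (g ^ p ^ t) p y]
    convert h3 using 1
    rw [smul_sub]; abel

end basic


section tau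

open Filter

variable {p : ℕ} {A : Type} [AddCommGroup A] [Pru p A]

omit [Pru p A] in
theorem supp_mem {g : Equiv.Perm A} {n : ℕ} (h : ∀ x ∉ B p A n, g x = x) {x : A}
    (hx : x ∈ B p A n) : g x ∈ B p A n := by
  by_contra h'
  exact h' (by rw [g.injective (h _ h')]; exact hx)

omit [Pru p A] in
theorem supp_D {g : Equiv.Perm A} {n : ℕ} (h : ∀ x ∉ B p A n, g x = x) (x : A) :
    D g x ∈ B p A n := by
  by_cases hx : x ∈ B p A n
  · exact sub_mem (supp_mem h hx) hx
  · simp [D, h x hx]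

variable (p) in
structure Tau (H : Subgroup (Equiv.Perm A)) where
  τ : ℕ → Equiv.Perm A
  mem : ∀ k, τ k ∈ GG p A
  ex : ∀ k x, Ex p k (D (τ k) x)
  pw : ∀ k, τ (k + 1) ^ p = τ k
  app : ∀ k n, ∃ u ∈ H, (∀ x, D u x ∈ B p A k) ∧
    (∀ x y, x - y ∈ B p A n → D u x - D u y ∈ B p A ((k + 1) / 3)) ∧ ∀ x ∈ B p A n, u x = τ k x

theorem exists_tau (H : Subgroup (Equiv.Perm A)) (hH : H ≤ GG p A)
    (hfin : ∀ g ∈ H, ∃ n, ∀ x ∉ B p A n, g x = x) (htr : ∀ x y, ∃ g ∈ H, g x = y) :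
    Nonempty (Tau p H) := by
  classical
  have hg : ∀ m : ℕ, ∃ g ∈ H, ∃ L, m ≤ L ∧ (∀ x, D g x ∈ B p A L) ∧ Ex p L (D g 0) := by
    intro m
    obtain ⟨e, he⟩ := exists_Ex' p A m
    obtain ⟨h, hh, h0⟩ := htr 0 e
    have hex : ∃ L, ∀ x, D h x ∈ B p A L := (hfin h hh).imp fun n hn => supp_D hn
    have hL := Nat.find_spec hex
    have hm : m + 1 ≤ Nat.find hex := by
      by_contra hc
      exact he.2 _ (not_le.1 hc) (by simpa [D, h0] using hL 0)
    obtain ⟨L, eL⟩ : ∃ L, Nat.find hex = L + 1 := ⟨Nat.find hex - 1, by omega⟩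
    obtain ⟨x, hx⟩ := not_forall.1 (Nat.find_min hex (show L < Nat.find hex by omega))
    rw [eL] at hL
    obtain ⟨c, hc, c0⟩ := htr x 0
    refine ⟨c * h * c⁻¹, H.mul_mem (H.mul_mem hc hh) (H.inv_mem hc), L + 1, by omega, fun y => ?_, ?_⟩
    · simpa [D] using Lp.iso (hH hc) (hL (c⁻¹ y))
    · have := Lp.ex (hH hc) (Ex.of_not (hL x) hx)
      rw [← c0]
      simpa [D] using this
  choose g hgH L hL hD hE using hg
  let u : ℕ → ℕ → Equiv.Perm A := fun m k => g m ^ p ^ (L m - k)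
  have huH : ∀ m k, u m k ∈ H := fun m k => H.pow_mem (hgH m) _
  have huD : ∀ m k, k ≤ m → ∀ x, D (u m k) x ∈ B p A k := fun m k h x =>
    B_mono (by have := hL m; omega) (pow_mem_D (hH (hgH m)) (hD m x) _)
  let U : Ultrafilter ℕ := hyperfilter ℕ
  have hge : ∀ k, ∀ᶠ m in (U : Filter ℕ), k ≤ m := fun k => Nat.hyperfilter_le_atTop (eventually_ge_atTop k)
  have lim : ∀ (f : ℕ → A) (x : A) (k : ℕ), (∀ m, k ≤ m → f m - x ∈ B p A k) →
      ∃ y, ∀ᶠ m in (U : Filter ℕ), f m = y := by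
    intro f x k h
    obtain ⟨y, -, hy⟩ := (Ultrafilter.eventually_exists_mem_iff (f := U) (P := fun y m => f m = y)
      (ball_fin (p := p) x k)).1 ((hge k).mono fun m hm => ⟨_, h m hm, rfl⟩)
    exact ⟨y, hy⟩
  choose t ht using fun k x => lim (fun m => u m k x) x k fun m hm => huD m k hm x
  have hbij : ∀ k, Function.Bijective (t k) := by
    intro k
    refine ⟨fun x y h => ?_, fun y => ?_⟩
    · obtain ⟨m, h1, h2⟩ := ((ht k x).and (ht k y)).exists
      exact (u m k).injective (h1.trans (h.trans h2.symm))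
    · obtain ⟨x, hx⟩ := lim (fun m => (u m k)⁻¹ y) y k fun m hm => by
        simpa [D] using neg_mem (huD m k hm ((u m k)⁻¹ y))
      obtain ⟨m, h1, h2⟩ := ((ht k x).and hx).exists
      exact ⟨x, by rw [← h1, ← h2]; simp⟩
  refine ⟨⟨fun k => Equiv.ofBijective _ (hbij k), fun k n x y hxy => ?_, fun k x => ?_,
    fun k => Equiv.ext fun x => ?_, fun k n => ?_⟩⟩
  · obtain ⟨m, h1, h2⟩ := ((ht k x).and (ht k y)).exists
    have := hH (huH m k) n x y hxy
    simp only [D, Equiv.ofBijective_apply, ← h1, ← h2] at this ⊢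
    exact this
  · obtain ⟨n, hn⟩ := exists_B p x
    obtain ⟨m, h1, h2, h3⟩ := ((ht k x).and ((hge k).and (hge n))).exists
    have h4 : Ex p (L m) (D (g m) x) := by
      have := (hE m).add (hH (hgH m) (L m) x 0 (by simpa using B_mono (h3.trans (hL m)) hn))
        (by omega)
      rwa [add_sub_cancel] at this
    have h5 := pow_ex (hH (hgH m)) (L m - k) (m := k)
      (by rwa [Nat.add_sub_cancel' (h2.trans (hL m))])
    simp only [D, Equiv.ofBijective_apply, ← h1] at h5 ⊢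
    exact h5
  · have hit : ∀ q : ℕ, ∀ᶠ m in (U : Filter ℕ),
        (u m (k + 1) ^ q) x = ((Equiv.ofBijective _ (hbij (k + 1))) ^ q) x := by
      intro q
      induction q with
      | zero => exact Eventually.of_forall fun _ => rfl
      | succ q ih =>
        filter_upwards [ih, ht (k + 1) (((Equiv.ofBijective _ (hbij (k + 1))) ^ q) x)] with m a b
        rw [pow_succ', pow_succ', Equiv.Perm.mul_apply, Equiv.Perm.mul_apply, a, b]
        rfl
    obtain ⟨m, h1, h2, h4⟩ := ((ht k x).and ((hit p).and (hge (k + 1)))).exists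
    have e : u m k = u m (k + 1) ^ p := by
      simp only [u]
      rw [← pow_mul, ← pow_succ]
      congr 2
      have := hL m
      omega
    rw [← h2, ← e]
    exact h1
  · obtain ⟨m, h1, h2⟩ := (((B_fin p A n).eventually_all.2 fun x _ => ht k x).and (hge (k + n))).exists
    refine ⟨u m k, huH m k, huD m k (by omega), fun x y hxy => ?_, h1⟩
    exact B_mono (by have := hL m; omega) (pure (hH (hgH m)) (hD m) hxy (L m - k))

theorem Tau.norm {H : Subgroup (Equiv.Perm A)} (T : Tau p H)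
    (hfin : ∀ g ∈ H, ∃ n, ∀ x ∉ B p A n, g x = x) (k : ℕ) {a : Equiv.Perm A} (ha : a ∈ H) :
    T.τ k * a * (T.τ k)⁻¹ ∈ H := by
  obtain ⟨n, hn⟩ := hfin a ha
  have hn' : ∀ x ∉ B p A (n + k), a x = x := fun x hx => hn x fun h => hx (B_mono (by omega) h)
  obtain ⟨u, hu, h1, -, h2⟩ := T.app k (n + k)
  have : T.τ k * a * (T.τ k)⁻¹ = u * a * u⁻¹ := by
    ext y
    obtain ⟨x, rfl⟩ := (T.τ k).surjective y
    by_cases hx : x ∈ B p A (n + k)
    · have e : u⁻¹ (T.τ k x) = x := by rw [← h2 x hx]; simp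
      simp only [Equiv.Perm.mul_apply, e, h2 _ (supp_mem hn' hx)]
      simp
    · have e : u⁻¹ (T.τ k x) ∉ B p A (n + k) := fun h => hx (by
        have a1 := B_mono (Nat.le_add_left k n) (h1 (u⁻¹ (T.τ k x)))
        have a2 := B_mono (Nat.le_add_left k n) (T.ex k x).1
        simpa [D] using sub_mem (add_mem a1 h) a2)
      simp only [Equiv.Perm.mul_apply, hn' _ e]
      simp [hn' x hx]
  rw [this]
  exact H.mul_mem (H.mul_mem hu ha) (H.inv_mem hu)

theorem Tau.comm {H : Subgroup (Equiv.Perm A)} (T : Tau p H) (j k : ℕ) :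
    Commute (T.τ j) (T.τ k) := by
  have h : ∀ d j, T.τ j = T.τ (j + d) ^ p ^ d := by
    intro d
    induction d with
    | zero => simp
    | succ d ih => intro j; rw [ih j, ← T.pw, ← pow_mul, ← pow_succ', add_assoc]
  rw [h k j, h j k, add_comm k j]
  exact (Commute.refl _).pow_pow _ _

end tau


section main

open Classical

variable {p : ℕ} {A : Type} [AddCommGroup A] [Pru p A] {H : Subgroup (Equiv.Perm A)}

variable (p) in
def Rep (H : Subgroup (Equiv.Perm A)) (k N : ℕ) (F : A → A) : Prop :=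
  ∃ u ∈ H, (∀ x, D u x ∈ B p A k) ∧ (∀ x ∉ B p A N, u x = x) ∧
    ∀ x, D u x - F x ∈ B p A ((k + 1) / 3)

omit [Pru p A] in
theorem Rep.zero (k N : ℕ) : Rep p H k N 0 :=
  ⟨1, H.one_mem, fun x => by simp [D], fun _ _ => rfl, fun x => by simp [D]⟩

omit [Pru p A] in
theorem Rep.mono {k N N' : ℕ} {F : A → A} (h : Rep p H k N F) (hN : N ≤ N') : Rep p H k N' F := by
  obtain ⟨u, h1, h2, h3, h4⟩ := h
  exact ⟨u, h1, h2, fun x hx => h3 x fun h => hx (B_mono hN h), h4⟩

omit [Pru p A] in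
theorem Rep.congr {k N : ℕ} {F F' : A → A} (h : Rep p H k N F)
    (hF : ∀ x, F x - F' x ∈ B p A ((k + 1) / 3)) : Rep p H k N F' := by
  obtain ⟨u, h1, h2, h3, h4⟩ := h
  exact ⟨u, h1, h2, h3, fun x => by simpa using add_mem (h4 x) (hF x)⟩

omit [Pru p A] in
theorem Rep.out {k N : ℕ} {F : A → A} (h : Rep p H k N F) {x : A} (hx : x ∉ B p A N) :
    F x ∈ B p A ((k + 1) / 3) := by
  obtain ⟨u, -, -, h3, h4⟩ := h
  simpa [D, h3 x hx] using h4 x

theorem Rep.add (hH : H ≤ GG p A) {k N : ℕ} {F F' : A → A} (h : Rep p H k N F)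
    (h' : Rep p H k N F') : Rep p H k N (F + F') := by
  obtain ⟨u, h1, h2, h3, h4⟩ := h
  obtain ⟨v, h1', h2', h3', h4'⟩ := h'
  refine ⟨u * v, H.mul_mem h1 h1', fun x => by rw [D_mul]; exact add_mem (h2' _) (h2 _),
    fun x hx => by rw [Equiv.Perm.mul_apply, h3' x hx, h3 x hx], fun x => ?_⟩
  have := add_mem (add_mem (h4 x) (h4' x))
    (B_mono (show k / 3 ≤ (k + 1) / 3 by omega) (hH h1 k _ _ (h2' x)))
  convert this using 1
  rw [D_mul, Pi.add_apply]; abel

theorem Rep.neg (hH : H ≤ GG p A) {k N : ℕ} {F : A → A} (h : Rep p H k N F) :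
    Rep p H k N (-F) := by
  obtain ⟨u, h1, h2, h3, h4⟩ := h
  have h5 : ∀ x, D u⁻¹ x = - D u (u⁻¹ x) := fun x => by simp [D]
  refine ⟨u⁻¹, H.inv_mem h1, fun x => by rw [h5]; exact neg_mem (h2 _), fun x hx => by
    rw [Equiv.Perm.inv_eq_iff_eq, h3 x hx], fun x => ?_⟩
  have h6 := hH h1 k (u⁻¹ x) x (by
    have := neg_mem (h2 (u⁻¹ x))
    simpa [D] using this)
  have := neg_mem (add_mem (B_mono (show k / 3 ≤ (k + 1) / 3 by omega) h6) (h4 x))
  convert this using 1
  rw [h5, Pi.neg_apply]; abel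

theorem Rep.nsmul (hH : H ≤ GG p A) {k N : ℕ} {F : A → A} (h : Rep p H k N F) (j : ℕ) :
    Rep p H k N (j • F) := by
  induction j with
  | zero => rw [zero_smul]; exact Rep.zero k N
  | succ j ih => rw [succ_nsmul]; exact ih.add hH h

theorem Rep.sum (hH : H ≤ GG p A) {k N : ℕ} {F : ℕ → A → A} (q : ℕ)
    (h : ∀ i < q, Rep p H k N (F i)) : Rep p H k N (∑ i ∈ Finset.range q, F i) := by
  induction q with
  | zero => simpa using Rep.zero k N
  | succ q ih =>
    rw [Finset.sum_range_succ]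
    exact (ih fun i hi => h i (by omega)).add hH (h q (by omega))

theorem Rep.conj1 (hfin : ∀ g ∈ H, ∃ n, ∀ x ∉ B p A n, g x = x) (T : Tau p H) {k N m : ℕ}
    (hm : m ≤ N) {F : A → A} (h : Rep p H k N F) : Rep p H k N fun x => F ((T.τ m)⁻¹ x) := by
  obtain ⟨u, h1, h2, h3, h4⟩ := h
  refine ⟨_, T.norm hfin m h1, fun x => ?_, fun x hx => ?_, fun x => ?_⟩
  · simpa [D] using Lp.iso (T.mem m) (h2 ((T.τ m)⁻¹ x))
  · have : (T.τ m)⁻¹ x ∉ B p A N := fun h => hx (by
      simpa [D] using add_mem (B_mono hm (T.ex m ((T.τ m)⁻¹ x)).1) h)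
    simp only [Equiv.Perm.mul_apply, h3 _ this]
    simp
  · have := add_mem (h4 ((T.τ m)⁻¹ x))
      (B_mono (show k / 3 ≤ (k + 1) / 3 by omega) (T.mem m k _ _ (h2 ((T.τ m)⁻¹ x))))
    convert this using 1
    simp only [D, Equiv.Perm.mul_apply, Equiv.Perm.coe_inv, Equiv.apply_symm_apply]; abel

theorem Rep.conj (hfin : ∀ g ∈ H, ∃ n, ∀ x ∉ B p A n, g x = x) (T : Tau p H) {k N m : ℕ}
    (hm : m ≤ N) {F : A → A} (h : Rep p H k N F) (j : ℕ) :
    Rep p H k N fun x => F ((T.τ m ^ j)⁻¹ x) := by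
  induction j with
  | zero => simpa using h
  | succ j ih => simpa [pow_succ'] using ih.conj1 hfin T hm

theorem patch [Fact p.Prime] (hH : H ≤ GG p A) (hfin : ∀ g ∈ H, ∃ n, ∀ x ∉ B p A n, g x = x)
    (T : Tau p H) {k N n : ℕ} {c : A} (h : Rep p H k N fun x => if x ∈ B p A n then c else 0)
    {F : A → A} (h1 : ∀ x ∈ B p A N, ∃ j : ℕ, F x = j • c)
    (h2 : ∀ x y, x - y ∈ B p A n → F x - F y ∈ B p A ((k + 1) / 3)) (d : ℕ) :
    n + d ≤ N → ∀ z ∈ B p A N, Rep p H k N fun x => if x - z ∈ B p A (n + d) then F x else 0 := by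
  induction d with
  | zero =>
    intro _ z hz
    obtain ⟨i, hi⟩ := cyc_ge (T.mem N) (T.ex N 0) z (by simpa using hz)
    obtain ⟨j, hj⟩ := h1 z hz
    refine ((h.conj hfin T le_rfl i).nsmul hH j).congr fun x => ?_
    have hs := (GG p A).pow_mem (T.mem N) i
    have e : (T.τ N ^ i)⁻¹ x ∈ B p A n ↔ x - z ∈ B p A n := by
      rw [← hi]
      exact ⟨fun h => by simpa using Lp.iso hs (x := (T.τ N ^ i)⁻¹ x) (y := 0) (by simpa using h),
        fun h => by simpa using Lp.iso' hs (x := (T.τ N ^ i)⁻¹ x) (y := 0) (by simpa using h)⟩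
    simp only [Pi.smul_apply, e, add_zero]
    split_ifs with hx
    · rw [← hj]; exact h2 z x (by simpa using neg_mem hx)
    · simp
  | succ d ih =>
    intro hd z hz
    obtain ⟨e, he⟩ := exists_Ex' p A (n + d)
    have he' := he.2 (n + d) (by omega)
    refine (Rep.sum hH p (F := fun i x => if x - (z + i • e) ∈ B p A (n + d) then F x else 0)
      fun i _ => ih (by omega) (z + i • e)
        (add_mem hz (nsmul_mem (B_mono hd he.1) i))).congr fun x => ?_
    rw [Finset.sum_apply]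
    by_cases a3 : x - z ∈ B p A (n + (d + 1))
    · have a3' : x - z ∈ B p A (n + d + 1) := a3
      obtain ⟨i, hi, hx⟩ := sub_mem_B a3' he.1 he'
      rw [Finset.sum_eq_single i, if_pos (by rwa [← sub_sub]), if_pos a3, sub_self]
      · exact zero_mem _
      · intro j hj hji
        refine if_neg fun h => hji ?_
        refine mul_inj he (Finset.mem_range.1 hj) hi ?_
        have := sub_mem hx h
        convert this using 1
        abel
      · intro h
        exact absurd (Finset.mem_range.2 hi) h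
    · rw [Finset.sum_eq_zero fun j _ => if_neg fun h => a3 ?_, if_neg a3, sub_self]
      · exact zero_mem _
      · have := add_mem (B_mono (n := n + (d + 1)) (by omega) h) (nsmul_mem he.1 j)
        convert this using 1
        abel

/-- the difference operator of the shift `s` -/
def Df (s : A → A) (F : A → A) : A → A := fun x => F (s x) - F x

omit [Pru p A] in
/-- the `p`-th power of the difference operator, modulo `p` -/
theorem Df_pow [hp : Fact p.Prime] (s : A → A) (i : ℕ) (F : A → A) (h1 : ∀ x, F x ∈ B p A (i + 1))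
    (h2 : ∀ x, F (s^[p] x) - F x ∈ B p A i) (x : A) : (Df s)^[p] F x ∈ B p A i := by
  let M : AddSubgroup (A → A) :=
    { carrier := {F | ∀ x, F x ∈ B p A (i + 1)}
      zero_mem' := fun x => zero_mem _
      neg_mem' := fun {F} h x => neg_mem (h x)
      add_mem' := fun {F G} h h' x => add_mem (h x) (h' x) }
  let T : AddMonoid.End M :=
    { toFun := fun F => ⟨fun x => F.1 (s x), fun x => F.2 (s x)⟩
      map_zero' := rfl
      map_add' := fun F G => rfl }
  have hT : ∀ n (G : M), ((T ^ n) G).1 = fun x => G.1 (s^[n] x) := by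
    intro n
    induction n with
    | zero => intro G; rfl
    | succ n ih =>
      intro G
      rw [pow_succ']
      show (fun x => ((T ^ n) G).1 (s x)) = _
      rw [ih]
      rfl
  have hD : ∀ n (G : M), (((T + (-1)) ^ n) G).1 = (Df s)^[n] G.1 := by
    intro n
    induction n with
    | zero => intro G; rfl
    | succ n ih =>
      intro G
      rw [pow_succ', Function.iterate_succ_apply', ← ih]
      funext y
      show (((T + (-1)) ((((T + (-1)) ^ n)) G))).1 y = _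
      show ((T (((T + (-1)) ^ n) G)).1 y + ((-1 : AddMonoid.End M) (((T + (-1)) ^ n) G)).1 y) = _
      simp only [Df, sub_eq_add_neg]
      rfl
  have hN : ∀ n (G : M), (((-1 : AddMonoid.End M) ^ n) G).1 = fun x => (-1 : ℤ) ^ n • G.1 x := by
    intro n
    induction n with
    | zero => intro G; funext y; simp
    | succ n ih =>
      intro G
      rw [pow_succ']
      funext y
      show - ((((-1 : AddMonoid.End M) ^ n) G).1 y) = _
      rw [ih, pow_succ]
      simp
  obtain ⟨r, hr⟩ := ((Commute.one_right T).neg_right).exists_add_pow_prime_eq hp.out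
  have e := congrArg (fun Z : AddMonoid.End M => (Z ⟨F, h1⟩).1 x) hr
  rw [hD] at e
  have hx : (Df s)^[p] F x = F (s^[p] x) + (((-1 : AddMonoid.End M) ^ p) ⟨F, h1⟩).1 x +
      p • ((T * (-1) * r) ⟨F, h1⟩).1 x := by
    rw [← show ((T ^ p) ⟨F, h1⟩).1 x = F (s^[p] x) from congrFun (hT p ⟨F, h1⟩) x]
    rw [mul_assoc, mul_assoc] at e
    rw [mul_assoc]
    exact e
  rw [hx]
  have h3 : p • ((T * (-1) * r) ⟨F, h1⟩).1 x ∈ B p A i := p_mem.2 (((T * (-1) * r) ⟨F, h1⟩).2 x)
  refine add_mem ?_ h3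
  have h4 : (((-1 : AddMonoid.End M) ^ p) ⟨F, h1⟩).1 x = (-1 : ℤ) ^ p • F x :=
    congrFun (hN p ⟨F, h1⟩) x
  rw [h4]
  rcases hp.out.eq_two_or_odd' with h | h
  · have h5 : p • F x ∈ B p A i := p_mem.2 (h1 x)
    have h6 := add_mem (h2 x) h5
    have e2 : (-1 : ℤ) ^ p = 1 := by rw [h]; norm_num
    have e3 : p • F x = F x + F x := by
      rw [show p • F x = 2 • F x by rw [h], two_nsmul]
    rw [e3] at h6
    rw [e2, one_smul]
    convert h6 using 1
    abel
  · rw [h.neg_one_pow, neg_smul, one_smul, ← sub_eq_add_neg]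
    exact h2 x

theorem doubling [hp : Fact p.Prime] (hH : H ≤ GG p A)
    (hfin : ∀ g ∈ H, ∃ n, ∀ x ∉ B p A n, g x = x) (T : Tau p H)
    {k N n i : ℕ} (hi : (k + 1) / 3 ≤ i) {F : A → A} (h : Rep p H k N F)
    (h1 : ∀ x, F x ∈ B p A (i + 1))
    (h2 : ∀ x y, x - y ∈ B p A n → F x - F y ∈ B p A ((k + 1) / 3)) (h3 : ∃ x, F x ∉ B p A i)
    (d : ℕ) : n + d ≤ N → ∃ F, Rep p H k N F ∧ (∀ x, F x ∈ B p A (i + 1)) ∧
      (∀ x y, x - y ∈ B p A n → F x - F y ∈ B p A ((k + 1) / 3)) ∧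
      (∀ x y, x - y ∈ B p A (n + d) → F x - F y ∈ B p A i) ∧ ∃ x, F x ∉ B p A i := by
  induction d with
  | zero => exact fun _ => ⟨F, h, h1, h2, fun x y hxy => B_mono hi (h2 x y hxy), h3⟩
  | succ d ih =>
    intro hd
    obtain ⟨F, a, a1, a2, a3, a4⟩ := ih (by omega)
    set s := (T.τ (n + d + 1))⁻¹ with hs
    have hsG : s ∈ GG p A := (GG p A).inv_mem (T.mem _)
    have hsD : ∀ x, Ex p (n + d + 1) (D s x) := by
      intro x
      have := T.ex (n + d + 1) (s x)
      have e : D (T.τ (n + d + 1)) (s x) = - D s x := by simp [D, hs]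
      rw [e] at this
      exact ⟨by simpa using neg_mem this.1, fun j hj h => this.2 j hj (neg_mem h)⟩
    have hr : ∀ r, Rep p H k N ((Df s)^[r] F) ∧ (∀ x, (Df s)^[r] F x ∈ B p A (i + 1)) ∧
        (∀ x y, x - y ∈ B p A n → (Df s)^[r] F x - (Df s)^[r] F y ∈ B p A ((k + 1) / 3)) := by
      intro r
      induction r with
      | zero => exact ⟨a, a1, a2⟩
      | succ r ihr =>
        obtain ⟨b0, b1, b2⟩ := ihr
        rw [Function.iterate_succ_apply']
        refine ⟨?_, fun x => sub_mem (b1 _) (b1 _), fun x y hxy => ?_⟩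
        · have := (b0.conj1 hfin T (m := n + d + 1) hd).add hH (b0.neg hH)
          convert this using 1
          funext x
          simp [Df, hs, sub_eq_add_neg]
        · have := sub_mem (b2 _ _ (Lp.iso hsG hxy)) (b2 x y hxy)
          convert this using 1
          simp only [Df]; abel
    have hp0 : ∀ x, (Df s)^[p] F x ∈ B p A i := by
      refine Df_pow s i F a1 fun x => a3 _ _ ?_
      have := sq_mem hsG (hsD x).1
      rw [Nat.add_sub_cancel] at this
      simpa [D, ← Equiv.Perm.iterate_eq_pow] using this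
    obtain ⟨r, hr1, hr2⟩ : ∃ r, (∃ x, (Df s)^[r] F x ∉ B p A i) ∧
        ∀ x, (Df s)^[r + 1] F x ∈ B p A i := by
      by_contra hc
      push Not at hc
      have : ∀ r, ∃ x, (Df s)^[r] F x ∉ B p A i := by
        intro r
        induction r with
        | zero => exact a4
        | succ r ihr => exact hc r ihr
      obtain ⟨x, hx⟩ := this p
      exact hx (hp0 x)
    obtain ⟨b0, b1, b2⟩ := hr r
    refine ⟨_, b0, b1, b2, fun x y hxy => ?_, hr1⟩
    have hj : ∀ j : ℕ, (Df s)^[r] F ((s ^ j) x) - (Df s)^[r] F x ∈ B p A i := by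
      intro j
      induction j with
      | zero => simp
      | succ j ihj =>
        have := add_mem (hr2 ((s ^ j) x)) ihj
        rw [Function.iterate_succ_apply'] at this
        simp only [Df] at this
        rw [pow_succ', Equiv.Perm.mul_apply]
        simpa using this
    obtain ⟨j, hj'⟩ := cyc_ge hsG (hsD x) y (by simpa [add_assoc] using neg_mem hxy)
    have := neg_mem (hj j)
    rw [hj'] at this
    simpa using this

theorem const_rep [Fact p.Prime] (hH : H ≤ GG p A) (hfin : ∀ g ∈ H, ∃ n, ∀ x ∉ B p A n, g x = x)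
    (T : Tau p H) (k S d : ℕ) : (k + 1) / 3 + d ≤ k → ∃ n, S ≤ n ∧ Rep p H k n fun x =>
      if x ∈ B p A n then p ^ (k - ((k + 1) / 3 + d)) • D (T.τ k) 0 else 0 := by
  have hex : ∀ i, i ≤ k → Ex p i (p ^ (k - i) • D (T.τ k) 0) := fun i hi =>
    Ex.pow (by rw [Nat.add_sub_cancel' hi]; exact T.ex k 0)
  induction d with
  | zero =>
    intro hk
    refine ⟨S, le_rfl, (Rep.zero k S).congr fun x => ?_⟩
    split_ifs
    · simpa using (hex _ hk).1
    · simp
  | succ d ih =>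
    intro hk
    obtain ⟨n, hn, hr⟩ := ih (by omega)
    set i := (k + 1) / 3 + d with hi
    obtain ⟨u, hu, u1, u2, u3⟩ := T.app k n
    obtain ⟨N, hN⟩ := hfin u hu
    have r0 : Rep p H k (n + N) (D u) :=
      ⟨u, hu, u1, fun x hx => hN x fun h => hx (B_mono (by omega) h), fun x => by simp⟩
    have hc' := hex (i + 1) hk
    obtain ⟨F, a, a1, a2, a3, x0, a4⟩ := doubling hH hfin T (n := n) (i := i) (by omega)
      (r0.nsmul hH (p ^ (k - (i + 1))))
      (fun x => pow_mem_B.2 (B_mono (by omega) (u1 x)))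
      (fun x y hxy => by
        simp only [Pi.smul_apply, ← smul_sub]; exact nsmul_mem (u2 x y hxy) _)
      ⟨0, by
        have : D u 0 = D (T.τ k) 0 := by simp only [D, u3 0 (zero_mem _)]
        rw [Pi.smul_apply, this]; exact hc'.2 i (by omega)⟩ N le_rfl
    have hx0 : x0 ∈ B p A (n + N) := by
      by_contra h
      exact a4 (B_mono (by omega) (a.out h))
    obtain ⟨l, -, hl⟩ := sub_mem_B hc'.1 (a1 x0) a4
    have a' := a.nsmul hH l
    have hp := patch hH hfin T (hr.mono (Nat.le_add_right n N))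
      (F := fun x => p ^ (k - (i + 1)) • D (T.τ k) 0 - (l • F) x)
      (fun x hx => (hex i (by omega)).cyc (by
        have := sub_mem hl (nsmul_mem (a3 x x0 (sub_mem hx hx0)) l)
        convert this using 1
        rw [Pi.smul_apply, smul_sub]; abel))
      (fun x y hxy => by
        have := neg_mem (nsmul_mem (a2 x y hxy) l)
        convert this using 1
        rw [Pi.smul_apply, Pi.smul_apply, smul_sub]; abel) N le_rfl 0 (zero_mem _)
    refine ⟨n + N, by omega, (a'.add hH hp).congr fun x => ?_⟩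
    simp only [Pi.add_apply, sub_zero]
    split_ifs with hx
    · rw [hi, add_assoc]; simp
    · simpa using a'.out hx

theorem exact_tr (hH : H ≤ GG p A) (hfin : ∀ g ∈ H, ∃ n, ∀ x ∉ B p A n, g x = x) (T : Tau p H)
    (s n : ℕ) (i : ℕ) :
    (∃ y ∈ H, (∀ x ∉ B p A n, y x = x) ∧ ∀ x ∈ B p A n, y x - T.τ (s + i) x ∈ B p A i) →
      s + i ≤ n → ∃ y ∈ H, (∀ x ∉ B p A n, y x = x) ∧ ∀ x ∈ B p A n, y x = T.τ s x := by
  induction i with
  | zero =>
    rintro ⟨y, h1, h2, h3⟩ _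
    exact ⟨y, h1, h2, fun x hx => sub_eq_zero.1 (B_zero.1 (h3 x hx))⟩
  | succ i ih =>
    rintro ⟨y, h1, h2, h3⟩ hn
    set t := T.τ (s + (i + 1)) with ht
    have htG : t ∈ GG p A := T.mem _
    have htn : ∀ x, x ∉ B p A n → t⁻¹ x ∉ B p A n := fun x hx h => hx (by
      simpa [D, ht] using add_mem (B_mono hn (T.ex (s + (i + 1)) (t⁻¹ x)).1) h)
    have hW : ∀ a : ℕ, t ^ a * (t⁻¹ * y) ^ a ∈ H ∧
        ∀ x ∉ B p A n, (t ^ a * (t⁻¹ * y) ^ a) x = x := by
      intro a
      induction a with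
      | zero => exact ⟨by simpa using H.one_mem, fun x _ => by simp⟩
      | succ a iha =>
        have e : t ^ (a + 1) * (t⁻¹ * y) ^ (a + 1) =
            t * (t ^ a * (t⁻¹ * y) ^ a) * t⁻¹ * y := by
          rw [pow_succ', pow_succ]; group
        rw [e]
        refine ⟨H.mul_mem (T.norm hfin _ iha.1) h1, fun x hx => ?_⟩
        rw [Equiv.Perm.mul_apply, h2 x hx, Equiv.Perm.mul_apply, Equiv.Perm.mul_apply,
          iha.2 _ (htn x hx)]
        simp
    refine ih ⟨t ^ p * (t⁻¹ * y) ^ p, (hW p).1, (hW p).2, fun x hx => ?_⟩ (by omega)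
    have e1 : D (t⁻¹ * y) x ∈ B p A (i + 1) := by
      refine Lp.iso' htG ?_
      simpa using h3 x hx
    have e2 := sq_mem ((GG p A).mul_mem ((GG p A).inv_mem htG) (hH h1)) e1
    rw [Nat.add_sub_cancel] at e2
    have e3 := Lp.iso ((GG p A).pow_mem htG p) e2
    have e4 : T.τ (s + i) = t ^ p := by rw [ht, ← add_assoc, T.pw]
    rw [e4, Equiv.Perm.mul_apply]
    exact e3

theorem main_tr [Fact p.Prime] (hH : H ≤ GG p A) (hfin : ∀ g ∈ H, ∃ n, ∀ x ∉ B p A n, g x = x)
    (T : Tau p H) (S s : ℕ) : ∃ n s', S ≤ n ∧ s ≤ s' ∧ ∃ y ∈ H, (∀ x ∉ B p A n, y x = x) ∧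
      ∀ x ∈ B p A n, y x = T.τ s' x := by
  obtain ⟨n, hn, u, h1, -, h3, h4⟩ := const_rep hH hfin T (3 * s) (S + 3 * s) (2 * s) (by omega)
  refine ⟨n, 2 * s, by omega, by omega, exact_tr hH hfin T (2 * s) n s ⟨u, h1, h3, fun x hx => ?_⟩
    (by omega)⟩
  obtain ⟨v, -, -, v2, v3⟩ := T.app (3 * s) n
  have a1 := h4 x
  have a2 := v2 x 0 (by simpa using hx)
  have e : 3 * s - ((3 * s + 1) / 3 + 2 * s) = 0 := by omega
  have e' : (3 * s + 1) / 3 = s := by omega
  simp only [hx, if_true, e, pow_zero, one_smul, D, v3 x hx, v3 0 (zero_mem _)] at a1 a2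
  rw [e'] at a1 a2
  rw [show 2 * s + s = 3 * s by omega]
  simpa using sub_mem a1 a2

omit [AddCommGroup A] in
theorem perm_fin {S : Set A} (hS : S.Finite) : {g : Equiv.Perm A | ∀ x ∉ S, g x = x}.Finite := by
  refine Set.Finite.of_finite_image (f := fun g => S.domRestrict (g : A → A)) ?_ ?_
  · have := hS.to_subtype
    refine (Set.Finite.pi' (t := fun _ : S => S) fun _ => hS).subset ?_
    rintro _ ⟨g, hg, rfl⟩ x
    by_contra h
    have e : g x = x := g.injective (hg _ h)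
    exact h (show g x ∈ S by rw [e]; exact x.2)
  · intro g hg g' hg' h
    ext x
    by_cases hx : x ∈ S
    · exact congrFun h ⟨x, hx⟩
    · rw [hg x hx, hg' x hx]

theorem no_mnfc [Fact p.Prime] (hH : H ≤ GG p A) (hfin : ∀ g ∈ H, ∃ n, ∀ x ∉ B p A n, g x = x)
    (hn : ¬ ∀ a ∈ H, {b : Equiv.Perm A | ∃ c ∈ H, b = c * a * c⁻¹}.Finite) :
    ∃ K < H, ∃ a ∈ K, ¬ {b : Equiv.Perm A | ∃ c ∈ K, b = c * a * c⁻¹}.Finite := by
  push Not at hn
  obtain ⟨a, ha, hinf⟩ := hn
  obtain ⟨n, hn⟩ := hfin a ha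
  have h1 : ∃ x, ∀ m, ∃ g ∈ H, D g x ∉ B p A m := by
    by_contra hc
    push Not at hc
    choose f hf using hc
    obtain ⟨M, hM⟩ := ((B_fin p A n).image f).bddAbove
    refine hinf ((perm_fin (B_fin p A (n + M))).subset ?_)
    rintro _ ⟨c, hc, rfl⟩ x hx
    have : c⁻¹ x ∉ B p A n := fun h => hx (by
      simpa [D] using add_mem (B_mono (n := n + M) (le_trans (hM ⟨_, h, rfl⟩) (by omega))
        (hf (c⁻¹ x) c hc)) (B_mono (by omega) h))
    simp only [Equiv.Perm.mul_apply, hn _ this]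
    simp
  obtain ⟨x0, hx0⟩ := h1
  have h2 : ∀ y, ∃ g ∈ H, g x0 = y := by
    intro y
    obtain ⟨m, hm⟩ := exists_B p (y - x0)
    obtain ⟨g, hg, hg'⟩ := hx0 m
    obtain ⟨j, hj⟩ := exists_Ex p (D g x0)
    obtain ⟨i, hi⟩ := cyc_ge (hH hg) hj y (B_mono (by
      by_contra hc
      exact hg' (B_mono (by omega) hj.1)) hm)
    exact ⟨_, H.pow_mem hg i, hi⟩
  have htr : ∀ x y, ∃ g ∈ H, g x = y := by
    intro x y
    obtain ⟨g, hg, rfl⟩ := h2 x
    obtain ⟨g', hg', rfl⟩ := h2 y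
    exact ⟨g' * g⁻¹, H.mul_mem hg' (H.inv_mem hg), by simp⟩
  obtain ⟨T⟩ := exists_tau H hH hfin htr
  have key : ∀ s, ∃ m s', s ≤ s' ∧ ∃ y ∈ H ⊓ Subgroup.centralizer {T.τ (n + 1)},
      (∀ x ∉ B p A m, y x = x) ∧ Ex p s' (y 0) := by
    intro s
    obtain ⟨m, s', b1, b2, y, b3, b4, b5⟩ := main_tr hH hfin T (n + 1) s
    refine ⟨m, s', b2, y, ⟨b3, Subgroup.mem_centralizer_singleton_iff.2 ?_⟩, b4, ?_⟩
    · ext x
      have c1 := B_mono b1 (T.ex (n + 1) x).1
      by_cases hx : x ∈ B p A m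
      · rw [Equiv.Perm.mul_apply, Equiv.Perm.mul_apply, b5 x hx,
          b5 _ (by simpa [D] using add_mem c1 hx)]
        exact congrFun (congrArg DFunLike.coe (T.comm s' (n + 1)).eq) x
      · rw [Equiv.Perm.mul_apply, Equiv.Perm.mul_apply, b4 x hx,
          b4 _ fun h => hx (by simpa [D] using sub_mem h c1)]
    · simpa [D, b5 0 (zero_mem _)] using T.ex s' 0
  refine ⟨H ⊓ Subgroup.centralizer {T.τ (n + 1)}, lt_of_le_of_ne inf_le_left fun e => ?_, ?_⟩
  · have hc : a ∈ H ⊓ Subgroup.centralizer {T.τ (n + 1)} := e.symm ▸ ha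
    have hc' := Subgroup.mem_centralizer_singleton_iff.1 hc.2
    have ha1 : a = 1 := by
      ext x
      by_cases hx : x ∈ B p A n
      · have c1 : T.τ (n + 1) x ∉ B p A n := fun h =>
          (T.ex (n + 1) x).2 n (by omega) (sub_mem h hx)
        have c2 : a (T.τ (n + 1) x) = T.τ (n + 1) (a x) := congrFun (congrArg DFunLike.coe hc') x
        rw [hn _ c1] at c2
        exact ((T.τ (n + 1)).injective c2).symm
      · exact hn x hx
    refine hinf ((Set.finite_singleton 1).subset ?_)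
    rintro _ ⟨c, -, rfl⟩
    simp [ha1]
  · obtain ⟨m, s, b1, y, b2, b3, b4⟩ := key 1
    refine ⟨y, b2, fun hf => ?_⟩
    have hf' : (⋃ b ∈ {b : Equiv.Perm A | ∃ c ∈ H ⊓ Subgroup.centralizer {T.τ (n + 1)},
        b = c * y * c⁻¹}, {x | b x ≠ x}).Finite := by
      refine hf.biUnion ?_
      rintro _ ⟨c, hc, rfl⟩
      obtain ⟨l, hl⟩ := hfin _ (H.mul_mem (H.mul_mem hc.1 b2.1) (H.inv_mem hc.1))
      exact (B_fin p A l).subset fun x hx => by_contra fun h => hx (hl x h)
    obtain ⟨l, hl⟩ := fin_sub p hf'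
    obtain ⟨-, s', c1, c, c2, -, c4⟩ := key (l + 1)
    refine c4.2 l (by omega) (hl _ (Set.mem_biUnion ⟨c, c2, rfl⟩ fun h => ?_))
    have h' : c (y 0) = c 0 := by simpa using h
    exact b4.2 0 (by omega) (B_zero.2 (c.injective h'))

variable (p A) in
def G0 : Subgroup (Equiv.Perm A) where
  carrier := {g | g ∈ GG p A ∧ ∃ n, ∀ x ∉ B p A n, g x = x}
  one_mem' := ⟨one_mem _, 0, fun _ _ => rfl⟩
  mul_mem' := fun {g h} ⟨a, n, hn⟩ ⟨b, m, hm⟩ => ⟨mul_mem a b, n + m, fun x hx => by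
    rw [Equiv.Perm.mul_apply, hm x fun h => hx (B_mono (by omega) h),
      hn x fun h => hx (B_mono (by omega) h)]⟩
  inv_mem' := fun {g} ⟨a, n, hn⟩ => ⟨inv_mem a, n, fun x hx => by
    rw [Equiv.Perm.inv_eq_iff_eq, hn x hx]⟩

variable (p) in
theorem G0_tr (x y : A) : ∃ g ∈ G0 p A, g x = y := by
  obtain ⟨j, hj⟩ := exists_B p (y - x)
  obtain ⟨l, hl⟩ := exists_B p x
  set n := l + 3 * j with hn
  have ha : y - x ∈ B p A n := B_mono (by omega) hj
  let f : A → A → A := fun a z => if z ∈ B p A n then z + a else z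
  have hf : ∀ a ∈ B p A n, ∀ z, f (-a) (f a z) = z := by
    intro a h z
    by_cases hz : z ∈ B p A n
    · simp [f, hz, add_mem hz h]
    · simp [f, hz]
  refine ⟨⟨f (y - x), f (-(y - x)), hf _ ha, fun z => by simpa using hf _ (neg_mem ha) z⟩,
    ⟨fun m z w hzw => ?_, n, fun z hz => if_neg hz⟩, ?_⟩
  · show f (y - x) z - z - (f (y - x) w - w) ∈ _
    by_cases hz : z ∈ B p A n <;> by_cases hw : w ∈ B p A n <;> simp only [f, hz, hw, if_true, if_false]
    · simp
    · have : n < m := by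
        by_contra hc
        exact hw (by simpa using sub_mem hz (B_mono (not_lt.1 hc) hzw))
      simpa using B_mono (n := m / 3) (by omega) hj
    · have : n < m := by
        by_contra hc
        exact hz (by simpa using add_mem (B_mono (not_lt.1 hc) hzw) hw)
      simpa using B_mono (n := m / 3) (by omega) (neg_mem hj)
    · simp
  · show f (y - x) x = y
    simp [f, B_mono (show l ≤ n by omega) hl]

theorem G0_cyc {g : Equiv.Perm A} (hg : g ∈ GG p A) (x : A) :
    ∃ j, Set.range (fun n : ℤ => (g ^ n) x) = {y | y - x ∈ B p A j} := by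
  obtain ⟨j, hj⟩ := exists_Ex p (D g x)
  refine ⟨j, Set.ext fun y => ⟨?_, fun hy => ?_⟩⟩
  · rintro ⟨n, rfl⟩
    exact cyc_le hg hj.1 n
  · obtain ⟨n, hn⟩ := cyc_ge hg hj y hy
    exact ⟨n, by simpa using hn⟩

variable (p A) in
include p in
theorem inf_A : Infinite A := by
  by_contra h
  rw [not_infinite_iff_finite] at h
  obtain ⟨n, hn⟩ := fin_sub p (Set.finite_univ (α := A))
  obtain ⟨e, he⟩ := exists_Ex' p A n
  exact he.2 n (by omega) (hn e trivial)

end main

/-- For EVERY prime `p` there is a totally imprimitive `p`-group `G` of finitary permutations of a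
countably infinite set, all cycle supports of which are blocks, such that no subgroup of `G` is a
minimal non-FC-group: every subgroup of `G` which is not FC has a proper subgroup which is not
FC. -/
theorem result (p : ℕ) (hp : p.Prime) :
    ∃ (Ω : Type) (_ : Infinite Ω) (_ : Countable Ω) (G : Subgroup (Equiv.Perm Ω)),
      (∀ g ∈ G, {x : Ω | g x ≠ x}.Finite) ∧
      (∀ g ∈ G, ∃ n : ℕ, g ^ (p ^ n) = 1) ∧
      (∀ x y : Ω, ∃ g ∈ G, g x = y) ∧
      (∀ F : Set Ω, F.Finite → ∃ B : Set Ω, F ⊆ B ∧ B.Finite ∧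
          ∀ h ∈ G, (⇑h '' B = B ∨ Disjoint (⇑h '' B) B)) ∧
      (∀ g ∈ G, ∀ x : Ω, ∀ h ∈ G,
          (⇑h '' Set.range (fun n : ℤ => (g ^ n) x) = Set.range (fun n : ℤ => (g ^ n) x) ∨
           Disjoint (⇑h '' Set.range (fun n : ℤ => (g ^ n) x))
             (Set.range (fun n : ℤ => (g ^ n) x)))) ∧
      ∀ H : Subgroup (Equiv.Perm Ω), H ≤ G →
        ¬ (∀ a ∈ H, {b : Equiv.Perm Ω | ∃ c ∈ H, b = c * a * c⁻¹}.Finite) →
        ∃ K : Subgroup (Equiv.Perm Ω), K < H ∧
          ¬ (∀ a ∈ K, {b : Equiv.Perm Ω | ∃ c ∈ K, b = c * a * c⁻¹}.Finite) := by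
  have : Fact p.Prime := ⟨hp⟩
  obtain ⟨A, _, _⟩ := exists_pru p hp
  have hinf : Infinite A := inf_A p A
  have hcount : Countable A := by
    have h : (Set.univ : Set A) = ⋃ m : ℕ, (B p A m : Set A) := by
      ext x
      simpa using exists_B p x
    rw [← Set.countable_univ_iff, h]
    exact Set.countable_iUnion fun m => (B_fin p A m).countable
  refine ⟨A, hinf, hcount, G0 p A,
    fun g ⟨_, n, hn⟩ => (B_fin p A n).subset fun x hx => by_contra fun h => hx (hn x h),
    fun g ⟨hg, n, hn⟩ => ⟨n, Equiv.ext fun x => sub_eq_zero.1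
      (B_zero.1 (by simpa [D] using pow_mem_D hg (supp_D hn x) n))⟩,
    G0_tr p,
    fun F hF => by
      obtain ⟨n, hn⟩ := fin_sub p hF
      exact ⟨_, fun x hx => by simpa using hn x hx, ball_fin 0 n, fun g hg => block hg.1 0 n⟩,
    fun g hg x c hc => by
      obtain ⟨j, hj⟩ := G0_cyc hg.1 x
      rw [hj]
      exact block hc.1 x j, fun H h1 h2 => ?_⟩
  obtain ⟨K, k1, a, k2, k3⟩ := no_mnfc (fun g hg => (h1 hg).1) (fun g hg => (h1 hg).2) h2
  exact ⟨K, k1, fun h => k3 (h a k2)⟩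

end Pool.Agent.Results.MP_e032dc_al.EveryPrime
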